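import Pool.Agent.helper7.UL.Spec

/-!
# Row TWO: two counted elements give two representations
-/

set_option autoImplicit false

namespace Pool.Agent.UL

open Finset

/-- A good triple. -/
def TWO_G (R o W A J : ℕ) (S0 lo hi : ℤ) (A1 j1 : ℕ) (B1 : ℤ) : Prop :=
  ∃ (ε j2 A2 : ℕ) (B2 : ℤ), ε ≤ 1 ∧ j1 + j2 = J + ε * o ∧ A1 + A2 + ε = A ∧ B1 + B2 = S0 + ε ∧
    j1 < o ∧ j2 < o ∧ lo ≤ B1 ∧ B1 ≤ hi ∧ lo ≤ B2 ∧ B2 ≤ hi ∧
    Sf R o W j1 (A1 * W + B1) = true ∧ Sf R o W j2 (A2 * W + B2) = true ∧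
    (A1 < A2 ∨ (A1 = A2 ∧ j1 < j2) ∨ (A1 = A2 ∧ j1 = j2 ∧ B1 < B2))

/-- Unique decomposition. -/
theorem TWO_dec {W A A' : ℕ} {lo hi B B' : ℤ} (hW : hi - lo < W) (h1 : lo ≤ B) (h2 : B ≤ hi)
    (h3 : lo ≤ B') (h4 : B' ≤ hi) (h : (A : ℤ) * W + B = (A' : ℤ) * W + B') :
    A = A' ∧ B = B' := by
  have hWn : (0 : ℤ) ≤ W := Int.natCast_nonneg W
  have hA : A = A' := by
    rcases lt_trichotomy A A' with hlt | heq | hgt
    · exfalso
      have h5 : ((A : ℤ) + 1) * W ≤ (A' : ℤ) * W := by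
        apply mul_le_mul_of_nonneg_right _ hWn
        exact_mod_cast hlt
      have h6 : ((A : ℤ) + 1) * W = (A : ℤ) * W + W := by ring
      omega
    · exact heq
    · exfalso
      have h5 : ((A' : ℤ) + 1) * W ≤ (A : ℤ) * W := by
        apply mul_le_mul_of_nonneg_right _ hWn
        exact_mod_cast hgt
      have h6 : ((A' : ℤ) + 1) * W = (A' : ℤ) * W + W := by ring
      omega
  refine ⟨hA, ?_⟩
  rw [hA] at h
  omega

theorem TWO_core {R o W A J : ℕ} {S0 lo hi : ℤ} (hW : hi - lo < W) {A1 j1 A1' j1' : ℕ}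
    {B1 B1' : ℤ} (hG : TWO_G R o W A J S0 lo hi A1 j1 B1) (hG' : TWO_G R o W A J S0 lo hi A1' j1' B1')
    (hne : ¬(A1 = A1' ∧ j1 = j1' ∧ B1 = B1')) : Two R o W J (A * W + S0) := by
  have hrep : ∀ (a b : ℕ) (c : ℤ) (ε j2 A2 : ℕ) (B2 : ℤ), ε ≤ 1 → b + j2 = J + ε * o →
      a + A2 + ε = A → c + B2 = S0 + ε → b < o → j2 < o → lo ≤ c → c ≤ hi → lo ≤ B2 → B2 ≤ hi →
      Sf R o W b (a * W + c) = true → Sf R o W j2 (A2 * W + B2) = true →
      (a < A2 ∨ (a = A2 ∧ b < j2) ∨ (a = A2 ∧ b = j2 ∧ c < B2)) →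
      RepS R o W J (A * W + S0) ((b, (a : ℤ) * W + c), (j2, (A2 : ℤ) * W + B2)) := by
    intro a b c ε j2 A2 B2 e1 e2 e3 e4 e5 e6 e7 e8 e9 e10 e11 e12 e13
    refine ⟨e5, e6, e11, e12, ?_, ε, e1, e2, ?_⟩
    · intro hq
      have h1 : b = j2 := congrArg Prod.fst hq
      have h2 : (a : ℤ) * W + c = (A2 : ℤ) * W + B2 := congrArg Prod.snd hq
      obtain ⟨h3, h4⟩ := TWO_dec hW e7 e8 e9 e10 h2
      rcases e13 with h5 | ⟨-, h5⟩ | ⟨-, -, h5⟩ <;> omega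
    · show (a : ℤ) * W + c + ((A2 : ℤ) * W + B2) = A * W + S0 - ε * ((W : ℤ) - 1)
      have h1 : (A : ℤ) = a + A2 + ε := by exact_mod_cast e3.symm
      rw [h1]
      linear_combination e4
  obtain ⟨ε, j2, A2, B2, f1, f2, f3, f4, f5, f6, f7, f8, f9, f10, f11, f12, f13⟩ := hG
  obtain ⟨ε', j2', A2', B2', g1, g2, g3, g4, g5, g6, g7, g8, g9, g10, g11, g12, g13⟩ := hG'
  refine ⟨_, _, hrep A1 j1 B1 ε j2 A2 B2 f1 f2 f3 f4 f5 f6 f7 f8 f9 f10 f11 f12 f13,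
    hrep A1' j1' B1' ε' j2' A2' B2' g1 g2 g3 g4 g5 g6 g7 g8 g9 g10 g11 g12 g13, ?_, ?_⟩
  · intro hq
    have h0 := congrArg Prod.fst hq
    have h1 : j1 = j1' := congrArg Prod.fst h0
    have h2 : (A1 : ℤ) * W + B1 = (A1' : ℤ) * W + B1' := congrArg Prod.snd h0
    obtain ⟨h3, h4⟩ := TWO_dec hW f7 f8 g7 g8 h2
    exact hne ⟨h3, h1, h4⟩
  · intro hq
    have h0 := congrArg Prod.fst hq
    have h1 : j1 = j2' := congrArg Prod.fst h0
    have h2 : (A1 : ℤ) * W + B1 = (A2' : ℤ) * W + B2' := congrArg Prod.snd h0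
    obtain ⟨h3, h4⟩ := TWO_dec hW f7 f8 g9 g10 h2
    have h0' := congrArg Prod.snd hq
    have h1' : j2 = j1' := congrArg Prod.fst h0'
    have h2' : (A2 : ℤ) * W + B2 = (A1' : ℤ) * W + B1' := congrArg Prod.snd h0'
    obtain ⟨h3', h4'⟩ := TWO_dec hW f9 f10 g7 g8 h2'
    rcases f13 with h5 | ⟨h5, h6⟩ | ⟨h5, h6, h7⟩ <;> rcases g13 with h8 | ⟨h8, h9⟩ | ⟨h8, h9, h10⟩ <;>
      omega

theorem TWO_sum {R o W X A J : ℕ} {S0 lo hi : ℤ} (hW : hi - lo < W) (S : ℕ → ℕ → Finset ℤ)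
    (h2 : 2 ≤ ∑ A1 ∈ range (X + 1), ∑ j1 ∈ range o, (S A1 j1).card)
    (hS : ∀ A1 j1 : ℕ, j1 < o → ∀ B1 ∈ S A1 j1, TWO_G R o W A J S0 lo hi A1 j1 B1) :
    Two R o W J (A * W + S0) := by
  have hcard : ((range (X + 1)).sigma fun A1 => (range o).sigma fun j1 => S A1 j1).card =
      ∑ A1 ∈ range (X + 1), ∑ j1 ∈ range o, (S A1 j1).card := by
    rw [Finset.card_sigma]
    exact Finset.sum_congr rfl fun A1 _ => Finset.card_sigma _ _
  rw [← hcard] at h2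
  obtain ⟨p, hp, q, hq, hpq⟩ := Finset.one_lt_card.1 h2
  obtain ⟨A1, j1, B1⟩ := p
  obtain ⟨A1', j1', B1'⟩ := q
  rw [mem_sigma, mem_sigma, mem_range, mem_range] at hp hq
  refine TWO_core hW (hS A1 j1 hp.2.1 B1 hp.2.2) (hS A1' j1' hq.2.1 B1' hq.2.2) ?_
  rintro ⟨h3, h4, h5⟩
  subst h3 h4 h5
  exact hpq rfl

/-- Elements for the first part. -/
noncomputable def TWO_S (R o A J β A1 j1 : ℕ) : Finset ℤ :=
  let ε := if j1 ≤ J then 0 else 1
  let j2 := J + ε * o - j1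
  let A2 := A - A1 - ε
  if A1 + ε ≤ A then
    (if A1 < A2 ∨ (A1 = A2 ∧ j1 < j2) then
      (nP R (cell R o j1 A1) (cell R o j2 A2) ((β : ℤ) - 2 * R - 1 + ε))
    else if A1 = A2 ∧ j1 = j2 then (nS R (cell R o j1 A1) ((β : ℤ) - 2 * R - 1 + ε)) else ∅)
  else ∅

theorem TWO_ctr (R o A J A1 j1 β : ℕ) : ctr R o A J A1 j1 β = (TWO_S R o A J β A1 j1).card := by
  unfold ctr TWO_S
  dsimp only
  split_ifs <;> simp

/-- Elements for the bulk. -/
noncomputable def TWO_B (R o A J A1 j1 : ℕ) (x : ℤ) : Finset ℤ :=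
  let ε := if j1 ≤ J then 0 else 1
  let j2 := J + ε * o - j1
  let A2 := A - A1 - ε
  if A1 + ε ≤ A then
    (if A1 < A2 ∨ (A1 = A2 ∧ j1 < j2) then
      nB R (cell R o j1 A1) (cell R o j2 A2) ∪
        (nB R (cell R o j2 A2) (cell R o j1 A1)).image (fun B => x + (ε : ℕ) - B)
    else if A1 = A2 ∧ j1 = j2 then nB R (cell R o j1 A1) (cell R o j1 A1) else ∅)
  else ∅

theorem TWO_nB {R c d : ℕ} {B : ℤ} (h : B ∈ nB R c d) :
    -(R : ℤ) ≤ B ∧ B ≤ 3 ∧ wv R c B = true ∧ d.testBit (R + 3) = true := by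
  unfold nB at h
  rw [mem_filter, mem_Icc] at h
  exact ⟨h.1.1, h.1.2, h.2.1, h.2.2⟩

theorem TWO_un (R c d : ℕ) (x : ℤ) (ε : ℕ) (hx : 7 ≤ x) :
    (nB R c d ∪ (nB R d c).image (fun B => x + (ε : ℕ) - B)).card =
      (nB R c d).card + (nB R d c).card := by
  rw [Finset.card_union_of_disjoint, Finset.card_image_of_injective]
  · intro a b hab
    have hab' : x + (ε : ℕ) - a = x + (ε : ℕ) - b := hab
    omega
  · rw [Finset.disjoint_left]
    intro a ha hb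
    rw [mem_image] at hb
    obtain ⟨b, hb, hab⟩ := hb
    have h1 := TWO_nB ha
    have h2 := TWO_nB hb
    omega

theorem TWO_ctb (R o A J A1 j1 : ℕ) (x : ℤ) (hx : 7 ≤ x) :
    ctb R o A J A1 j1 = (TWO_B R o A J A1 j1 x).card := by
  unfold ctb TWO_B
  dsimp only
  split_ifs
  all_goals first
    | exact (TWO_un _ _ _ _ _ hx).symm
    | simp

theorem TWO_wv {R c : ℕ} {B : ℤ} (h : 3 < B) : wv R c B = c.testBit (R + 3) := by
  unfold wv
  rw [if_neg (by omega), if_pos h]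

theorem TWO (h1 : EXT_stmt) : TWO_stmt := by
  intro R o W X A J hT hW hJ
  have hR := hT.hR
  have hext : ∀ j < o, ∀ (A : ℕ) (B : ℤ), -((W : ℤ) - 4) ≤ B → B < (W : ℤ) - R →
      wv R (cell R o j A) B = true → Sf R o W j (A * W + B) = true := by
    intro j hj A B hB1 hB2 hwv
    rw [h1 R o W hT (by omega) j hj A B hB1 hB2]
    exact hwv
  have hj2 : ∀ j1 < o, ∀ ε : ℕ, ε = (if j1 ≤ J then 0 else 1) →
      ε ≤ 1 ∧ j1 + (J + ε * o - j1) = J + ε * o ∧ J + ε * o - j1 < o := by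
    intro j1 hj1 ε hε
    split_ifs at hε with h
    · subst hε
      omega
    · subst hε
      omega
  constructor
  · intro β hβ h2
    have h3 : ∑ A1 ∈ range (X + 1), ∑ j1 ∈ range o, (TWO_S R o A J β A1 j1).card =
        ∑ A1 ∈ range (X + 1), ∑ j1 ∈ range o, ctr R o A J A1 j1 β :=
      Finset.sum_congr rfl fun A1 _ => Finset.sum_congr rfl fun j1 _ => (TWO_ctr _ _ _ _ _ _ _).symm
    rw [← h3] at h2
    refine TWO_sum (lo := -(3 * (R : ℤ) + 12)) (hi := (R : ℤ) + 11) (by omega)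
      (TWO_S R o A J β) h2 ?_
    intro A1 j1 hj1 B1 hB1
    unfold TWO_S at hB1
    dsimp only at hB1
    obtain ⟨ε, hε⟩ : ∃ ε : ℕ, ε = (if j1 ≤ J then 0 else 1) := ⟨_, rfl⟩
    rw [← hε] at hB1
    obtain ⟨e1, e2, e3⟩ := hj2 j1 hj1 ε hε
    split_ifs at hB1 with ha hb hc
    · unfold nP box at hB1
      rw [mem_filter, mem_Icc, mem_Icc] at hB1
      obtain ⟨⟨k1, k2⟩, k3, k4, k5, k6⟩ := hB1
      refine ⟨ε, J + ε * o - j1, A - A1 - ε, (β : ℤ) - 2 * R - 1 + ε - B1, e1, e2, by omega,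
        by ring, hj1, e3, k1, k2, k5, k6, ?_, ?_, ?_⟩
      · exact hext j1 hj1 A1 B1 (by omega) (by omega) k3
      · exact hext _ e3 _ _ (by omega) (by omega) k4
      · rcases hb with hb | hb
        · exact Or.inl hb
        · exact Or.inr (Or.inl hb)
    · unfold nS box at hB1
      rw [mem_filter, mem_Icc, mem_Icc] at hB1
      obtain ⟨⟨k1, k2⟩, k3, k4, ⟨k5, k6⟩, k7⟩ := hB1
      refine ⟨ε, J + ε * o - j1, A - A1 - ε, (β : ℤ) - 2 * R - 1 + ε - B1, e1, e2, by omega,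
        by ring, hj1, e3, k1, k2, k5, k6, ?_, ?_, ?_⟩
      · exact hext j1 hj1 A1 B1 (by omega) (by omega) k3
      · rw [← hc.1, ← hc.2]
        exact hext _ hj1 _ _ (by omega) (by omega) k4
      · exact Or.inr (Or.inr ⟨hc.1, hc.2, k7⟩)
    · exact absurd hB1 (Finset.notMem_empty _)
    · exact absurd hB1 (Finset.notMem_empty _)
  · intro h2 x hx1 hx2
    have h3 : ∑ A1 ∈ range (X + 1), ∑ j1 ∈ range o, (TWO_B R o A J A1 j1 x).card =
        ∑ A1 ∈ range (X + 1), ∑ j1 ∈ range o, ctb R o A J A1 j1 :=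
      Finset.sum_congr rfl fun A1 _ => Finset.sum_congr rfl fun j1 _ =>
        (TWO_ctb _ _ _ _ _ _ _ hx1).symm
    rw [← h3] at h2
    refine TWO_sum (lo := -(R : ℤ)) (hi := (W : ℤ) - R - 1) (by omega)
      (fun A1 j1 => TWO_B R o A J A1 j1 x) h2 ?_
    intro A1 j1 hj1 B1 hB1
    unfold TWO_B at hB1
    dsimp only at hB1
    obtain ⟨ε, hε⟩ : ∃ ε : ℕ, ε = (if j1 ≤ J then 0 else 1) := ⟨_, rfl⟩
    rw [← hε] at hB1
    obtain ⟨e1, e2, e3⟩ := hj2 j1 hj1 ε hε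
    split_ifs at hB1 with ha hb hc
    · have hord : A1 < A - A1 - ε ∨ (A1 = A - A1 - ε ∧ j1 < J + ε * o - j1) ∨
          (A1 = A - A1 - ε ∧ j1 = J + ε * o - j1 ∧ B1 < x + ε - B1) := by
        rcases hb with hb | hb
        · exact Or.inl hb
        · exact Or.inr (Or.inl hb)
      rw [mem_union] at hB1
      rcases hB1 with hB1 | hB1
      · obtain ⟨k1, k2, k3, k4⟩ := TWO_nB hB1
        refine ⟨ε, J + ε * o - j1, A - A1 - ε, x + ε - B1, e1, e2, by omega, by ring, hj1, e3,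
          k1, by omega, by omega, by omega, ?_, ?_, hord⟩
        · exact hext j1 hj1 A1 B1 (by omega) (by omega) k3
        · refine hext _ e3 _ _ (by omega) (by omega) ?_
          rw [TWO_wv (by omega)]
          exact k4
      · rw [mem_image] at hB1
        obtain ⟨B, hB, hBB⟩ := hB1
        obtain ⟨k1, k2, k3, k4⟩ := TWO_nB hB
        refine ⟨ε, J + ε * o - j1, A - A1 - ε, x + ε - B1, e1, e2, by omega, by ring, hj1, e3,
          by omega, by omega, by omega, by omega, ?_, ?_, hord⟩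
        · refine hext j1 hj1 A1 B1 (by omega) (by omega) ?_
          rw [TWO_wv (by omega)]
          exact k4
        · have h5 : x + (ε : ℤ) - B1 = B := by omega
          rw [h5]
          exact hext _ e3 _ _ (by omega) (by omega) k3
    · obtain ⟨k1, k2, k3, k4⟩ := TWO_nB hB1
      refine ⟨ε, J + ε * o - j1, A - A1 - ε, x + ε - B1, e1, e2, by omega, by ring, hj1, e3,
        k1, by omega, by omega, by omega, ?_, ?_, Or.inr (Or.inr ⟨hc.1, hc.2, by omega⟩)⟩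
      · exact hext j1 hj1 A1 B1 (by omega) (by omega) k3
      · rw [← hc.1, ← hc.2]
        refine hext _ hj1 _ _ (by omega) (by omega) ?_
        rw [TWO_wv (by omega)]
        exact k4
    · exact absurd hB1 (Finset.notMem_empty _)
    · exact absurd hB1 (Finset.notMem_empty _)

end Pool.Agent.UL
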